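import Pool.Agent.L7h28.VC.Stm

/-! [NL2] of project VC (helper28). -/

set_option autoImplicit false

open Function Finset Polynomial

namespace Pool.Agent.L7h21.VC

open Pool.Agent.H430R2.PermCubes Pool.Agent.L7h28.VC

section gen

variable {F : Type} {p m K : ℕ}

/-- `m + K` functions on `F^m`, any `m` of which are jointly injective, give a variational set of
`K` cubes -/
theorem var_of_arc (τ : Fin p ≃ F) (Φ : Fin (m + K) → (Fin m → F) → F)
    (h : ∀ e : Fin m → Fin (m + K), Injective e → Injective (fun y i => Φ (e i) y))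
    (A : (Fin m → F) ≃ (Fin m → F)) (hA : ∀ y i, A y i = Φ (Fin.castAdd K i) y) :
    IsVariationalSet m p K
      (fun j x => τ.symm (Φ (Fin.natAdd m j) (A.symm (fun i => τ (x i))))) := by
  refine ⟨?_, ?_⟩
  · intro j i x
    refine Finite.injective_iff_bijective.1 ?_
    intro t t' htt
    have h0 : Φ (Fin.natAdd m j) (A.symm (fun i' => τ (update x i t i'))) =
        Φ (Fin.natAdd m j) (A.symm (fun i' => τ (update x i t' i'))) := τ.symm.injective htt
    have hA' : ∀ w i', Φ (Fin.castAdd K i') (A.symm w) = w i' := by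
      intro w i'
      rw [← hA, A.apply_symm_apply]
    let e : Fin m → Fin (m + K) := fun i' => if i' = i then Fin.natAdd m j else Fin.castAdd K i'
    have he : Injective e := by
      intro b c hbc
      by_cases hb : b = i
      · by_cases hc : c = i
        · rw [hb, hc]
        · have h1 : Fin.natAdd m j = Fin.castAdd K c := by
            have h2 : e b = Fin.natAdd m j := if_pos hb
            have h3 : e c = Fin.castAdd K c := if_neg hc
            rw [← h2, ← h3, hbc]
          have h2 := congrArg Fin.val h1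
          simp only [Fin.val_natAdd, Fin.val_castAdd] at h2
          have := c.2
          omega
      · by_cases hc : c = i
        · have h1 : Fin.castAdd K b = Fin.natAdd m j := by
            have h2 : e b = Fin.castAdd K b := if_neg hb
            have h3 : e c = Fin.natAdd m j := if_pos hc
            rw [← h2, ← h3, hbc]
          have h2 := congrArg Fin.val h1
          simp only [Fin.val_natAdd, Fin.val_castAdd] at h2
          have := b.2
          omega
        · have h2 : e b = Fin.castAdd K b := if_neg hb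
          have h3 : e c = Fin.castAdd K c := if_neg hc
          rw [h2, h3] at hbc
          exact Fin.castAdd_injective m K hbc
    have h1 : A.symm (fun i' => τ (update x i t i')) = A.symm (fun i' => τ (update x i t' i')) := by
      apply h e he
      funext i'
      change Φ (e i') (A.symm fun i' => τ (update x i t i')) =
        Φ (e i') (A.symm fun i' => τ (update x i t' i'))
      by_cases hi : i' = i
      · have h2 : e i' = Fin.natAdd m j := if_pos hi
        rw [h2]
        exact h0
      · have h2 : e i' = Fin.castAdd K i' := if_neg hi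
        rw [h2, hA', hA', update_of_ne hi, update_of_ne hi]
    have h2 := congrFun (A.symm.injective h1) i
    simp only [update_self] at h2
    exact τ.injective h2
  · intro e he
    refine Finite.injective_iff_bijective.1 ?_
    intro x x' hxx
    have h1 : A.symm (fun i => τ (x i)) = A.symm (fun i => τ (x' i)) := by
      apply h (fun i => Fin.natAdd m (e i)) ((Fin.natAdd_injective K m).comp he)
      funext i
      exact τ.symm.injective (congrFun hxx i)
    funext i
    exact τ.injective (congrFun (A.symm.injective h1) i)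

end gen

section arc

variable {p : ℕ} [Fact p.Prime] {m : ℕ}

/-- the evaluation form -/
def evl (m : ℕ) (t : ZMod p) : (Fin m → ZMod p) →ₗ[ZMod p] ZMod p :=
  ∑ j : Fin m, t ^ (j : ℕ) • LinearMap.proj j

theorem evl_apply (t : ZMod p) (y : Fin m → ZMod p) :
    evl m t y = ∑ j : Fin m, t ^ (j : ℕ) * y j := by
  simp [evl]

/-- the polynomial -/
noncomputable def pol (y : Fin m → ZMod p) : (ZMod p)[X] := ∑ j : Fin m, C (y j) * X ^ (j : ℕ)

theorem eval_pol (t : ZMod p) (y : Fin m → ZMod p) : (pol y).eval t = evl m t y := by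
  rw [evl_apply, pol, eval_finsetSum]
  refine Finset.sum_congr rfl fun j _ => ?_
  rw [eval_mul, eval_C, eval_pow, eval_X, mul_comm]

theorem coeff_pol (y : Fin m → ZMod p) (l : ℕ) :
    (pol y).coeff l = if h : l < m then y ⟨l, h⟩ else 0 := by
  rw [pol, finsetSum_coeff]
  simp only [coeff_C_mul, coeff_X_pow]
  split_ifs with h
  · rw [Finset.sum_eq_single ⟨l, h⟩]
    · simp
    · intro b _ hb
      rw [if_neg, mul_zero]
      intro h2
      exact hb (Fin.ext h2.symm)
    · intro h2
      exact absurd (Finset.mem_univ _) h2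
  · refine Finset.sum_eq_zero fun b _ => ?_
    rw [if_neg, mul_zero]
    intro h2
    exact h (h2 ▸ b.2)

theorem degree_pol (y : Fin m → ZMod p) : (pol y).degree < m := by
  rw [degree_lt_iff_coeff_zero]
  intro l hl
  rw [coeff_pol, dif_neg (by omega)]

/-- a point with `m` different zeros is zero -/
theorem eq_zero_of_evl {d : Fin m → ZMod p} {t : Fin m → ZMod p} (ht : Injective t)
    (h : ∀ i, evl m (t i) d = 0) : d = 0 := by
  have h1 : pol d = 0 := by
    refine eq_zero_of_degree_lt_of_eval_finset_eq_zero (Finset.univ.image t) ?_ ?_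
    · rw [Finset.card_image_of_injective _ ht, Finset.card_univ, Fintype.card_fin]
      exact degree_pol d
    · intro x hx
      obtain ⟨i, -, rfl⟩ := Finset.mem_image.1 hx
      rw [eval_pol, h]
  funext j
  have h2 := coeff_pol d j
  rw [h1, dif_pos j.2, coeff_zero] at h2
  exact h2.symm

/-- a point with `m - 1` different zeros -/
theorem coeff_zero_of_evl (hm : 2 ≤ m) {d : Fin m → ZMod p} (s : Finset (Fin m)) {t : Fin m → ZMod p}
    (hs : s.card = m - 1) (ht : Set.InjOn t s) (h : ∀ i ∈ s, evl m (t i) d = 0) :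
    d ⟨0, by omega⟩ = (-1) ^ (m - 1) * (∏ i ∈ s, t i) * d ⟨m - 1, by omega⟩ ∧
    (d ⟨m - 1, by omega⟩ = 0 → d = 0) := by
  have hQm : (∏ i ∈ s, (X - C (t i))).Monic := monic_prod_X_sub_C t s
  have hQd : (∏ i ∈ s, (X - C (t i))).natDegree = m - 1 := by
    rw [natDegree_finsetProd_X_sub_C_eq_card, hs]
  have h1 : pol d = C (d ⟨m - 1, by omega⟩) * ∏ i ∈ s, (X - C (t i)) := by
    refine eq_of_degree_sub_lt_of_eval_finset_eq (s.image t) ?_ ?_
    · rw [Finset.card_image_of_injOn ht, hs, degree_lt_iff_coeff_zero]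
      intro l hl
      rw [coeff_sub, coeff_C_mul, coeff_pol]
      rcases Nat.lt_or_ge l m with h2 | h2
      · have h3 : l = m - 1 := by omega
        subst h3
        rw [dif_pos h2]
        have h4 : (∏ i ∈ s, (X - C (t i))).coeff (m - 1) = 1 := by
          have h5 := hQm.coeff_natDegree
          rw [hQd] at h5
          exact h5
        rw [h4, mul_one, sub_self]
      · rw [dif_neg (by omega), coeff_eq_zero_of_natDegree_lt (by rw [hQd]; omega), mul_zero,
          sub_self]
    · intro x hx
      obtain ⟨i, hi, rfl⟩ := Finset.mem_image.1 hx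
      rw [eval_pol, h i hi, eval_mul, eval_prod, Finset.prod_eq_zero hi (by simp), mul_zero]
  refine ⟨?_, ?_⟩
  · have h2 : (pol d).coeff 0 = (C (d ⟨m - 1, by omega⟩) * ∏ i ∈ s, (X - C (t i))).coeff 0 := by
      rw [← h1]
    rw [coeff_pol, dif_pos (by omega), coeff_zero_eq_eval_zero, eval_mul, eval_C, eval_prod] at h2
    rw [h2]
    have h3 : ∏ i ∈ s, (X - C (t i)).eval 0 = (-1) ^ (m - 1) * ∏ i ∈ s, t i := by
      rw [← hs, ← Finset.prod_const, ← Finset.prod_mul_distrib]
      refine Finset.prod_congr rfl fun i _ => ?_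
      simp
    rw [h3]
    ring
  · intro h2
    rw [h2, C_0, zero_mul] at h1
    funext j
    have h3 := coeff_pol d j
    rw [h1, dif_pos j.2, coeff_zero] at h3
    exact h3.symm

/-- squares -/
def tq (p : ℕ) (i : ℕ) : ZMod p := ((i : ZMod p) + 1) ^ 2

theorem tq_ne {i : ℕ} (hi : i < (p - 1) / 2) : ((i : ZMod p) + 1) ≠ 0 := by
  intro h
  have h1 : ((i + 1 : ℕ) : ZMod p) = 0 := by push_cast; exact h
  rw [ZMod.natCast_eq_zero_iff] at h1
  have := Nat.le_of_dvd (by omega) h1
  omega

theorem tq_inj {i j : ℕ} (hi : i < (p - 1) / 2) (hj : j < (p - 1) / 2) (h : tq p i = tq p j) :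
    i = j := by
  unfold tq at h
  have h1 : ((i : ZMod p) - j) * ((i : ZMod p) + j + 2) = 0 := by linear_combination h
  rcases mul_eq_zero.1 h1 with h2 | h2
  · have h3 : (i : ZMod p) = (j : ZMod p) := sub_eq_zero.1 h2
    rw [ZMod.natCast_eq_natCast_iff'] at h3
    rwa [Nat.mod_eq_of_lt (by omega), Nat.mod_eq_of_lt (by omega)] at h3
  · exfalso
    have h3 : ((i + j + 2 : ℕ) : ZMod p) = 0 := by push_cast; exact h2
    rw [ZMod.natCast_eq_zero_iff] at h3
    have := Nat.le_of_dvd (by omega) h3
    omega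

/-- the last function -/
def Fn (g : ZMod p → ZMod p) (ε : ZMod p) (hm : 2 ≤ m) (y : Fin m → ZMod p) : ZMod p :=
  (y ⟨0, by omega⟩ + ε * y ⟨m - 1, by omega⟩) + g (y ⟨0, by omega⟩ - ε * y ⟨m - 1, by omega⟩)

/-- the arc -/
def arc {k : ℕ} (g : ZMod p → ZMod p) (ε : ZMod p) (hm : 2 ≤ m) (s : Fin (m + (k + 1)))
    (y : Fin m → ZMod p) : ZMod p :=
  if (s : ℕ) < m + k then evl m (tq p s) y else Fn g ε hm y

theorem arc_inj (h1 : S_NL1) {k : ℕ} (g : ZMod p → ZMod p) (hg : ∀ v, IsSquare v → g v = v)
    (hg' : ∀ v, ¬ IsSquare v → g v = -v) (hm : 2 ≤ m) (hk : m + k = (p - 1) / 2)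
    (e : Fin m → Fin (m + (k + 1))) (he : Injective e) :
    Injective (fun (y : Fin m → ZMod p) i => arc g ((-1) ^ (m - 1)) hm (e i) y) := by
  intro y y' hyy
  have hy : ∀ i, arc g ((-1) ^ (m - 1)) hm (e i) y = arc g ((-1) ^ (m - 1)) hm (e i) y' :=
    fun i => congrFun hyy i
  have hz : ∀ i, ((e i : ℕ) < m + k) → evl m (tq p (e i)) (y - y') = 0 := by
    intro i hi
    have h2 := hy i
    unfold arc at h2
    rw [if_pos hi, if_pos hi] at h2
    rw [map_sub, h2, sub_self]
  have hti : ∀ i j, ((e i : ℕ) < m + k) → ((e j : ℕ) < m + k) → tq p (e i) = tq p (e j) →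
      i = j := by
    intro i j hi hj hij
    exact he (Fin.ext (tq_inj (by omega) (by omega) hij))
  suffices h : y - y' = 0 from sub_eq_zero.1 h
  by_cases hc : ∀ i, (e i : ℕ) < m + k
  · exact eq_zero_of_evl (t := fun i => tq p (e i)) (fun i j hij => hti i j (hc i) (hc j) hij)
      fun i => hz i (hc i)
  · push Not at hc
    obtain ⟨i0, hi0⟩ := hc
    have hi : ∀ i, i ≠ i0 → (e i : ℕ) < m + k := by
      intro i hi
      by_contra h2
      apply hi
      apply he
      apply Fin.ext
      have h3 := (e i).2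
      have h4 := (e i0).2
      omega
    obtain ⟨h2, h3⟩ := coeff_zero_of_evl (p := p) hm (d := y - y') (Finset.univ.erase i0)
      (t := fun i => tq p (e i)) (by rw [Finset.card_erase_of_mem (Finset.mem_univ _)]; simp)
      (fun i hii j hjj hij => hti i j (hi i (Finset.ne_of_mem_erase hii))
        (hi j (Finset.ne_of_mem_erase hjj)) hij)
      (fun i hii => hz i (hi i (Finset.ne_of_mem_erase hii)))
    apply h3
    have h4 := hy i0
    unfold arc at h4
    rw [if_neg (by omega), if_neg (by omega)] at h4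
    unfold Fn at h4
    refine h1 p (by omega) g hg hg' ((-1) ^ (m - 1)) (neg_one_pow_eq_or _ _)
      (∏ i ∈ Finset.univ.erase i0, tq p (e i)) ?_ ?_ (y' ⟨0, by omega⟩) (y' ⟨m - 1, by omega⟩) _ ?_
    · refine Finset.prod_ne_zero_iff.2 fun i hii => ?_
      exact pow_ne_zero 2 (tq_ne (by have := hi i (Finset.ne_of_mem_erase hii); omega))
    · refine ⟨∏ i ∈ Finset.univ.erase i0, (((e i : ℕ) : ZMod p) + 1), ?_⟩
      rw [← Finset.prod_mul_distrib]
      refine Finset.prod_congr rfl fun i _ => ?_
      unfold tq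
      ring
    · rw [← h2]
      simp only [Pi.sub_apply]
      rw [add_sub_cancel, add_sub_cancel]
      exact h4

end arc

/-- [NL2] -/
theorem s_NL2 (h1 : S_NL1) : S_NL2 := by
  intro p _ m k hm hk g hg hg'
  classical
  let ε : ZMod p := (-1) ^ (m - 1)
  have hε : ε = 1 ∨ ε = -1 := neg_one_pow_eq_or _ _
  have hε2 : ε * ε = 1 := by
    rcases hε with h | h <;> rw [h] <;> ring
  have harc := fun e he => arc_inj (p := p) (m := m) h1 g hg hg' hm hk e he
  let A0 : (Fin m → ZMod p) →ₗ[ZMod p] (Fin m → ZMod p) :=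
    LinearMap.pi fun i : Fin m => evl m (tq p (i : ℕ))
  have hcast : ∀ (i : Fin m) (y : Fin m → ZMod p),
      arc (k := k) g ε hm (Fin.castAdd (k + 1) i) y = evl m (tq p (i : ℕ)) y := by
    intro i y
    unfold arc
    rw [if_pos (by rw [Fin.val_castAdd]; have := i.2; omega), Fin.val_castAdd]
  have hA0 : Injective A0 := by
    intro y y' hyy
    refine harc (fun i => Fin.castAdd (k + 1) i) (Fin.castAdd_injective m (k + 1)) ?_
    funext i
    change arc g ε hm (Fin.castAdd (k + 1) i) y = arc g ε hm (Fin.castAdd (k + 1) i) y'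
    rw [hcast, hcast]
    exact congrFun hyy i
  let A : (Fin m → ZMod p) ≃ₗ[ZMod p] (Fin m → ZMod p) := LinearEquiv.ofInjectiveEndo A0 hA0
  have hA : ∀ y i, A y i = evl m (tq p (i : ℕ)) y := fun _ _ => rfl
  let τ : Fin p ≃ ZMod p := (Fintype.equivFinOfCardEq (ZMod.card p)).symm
  have hlin : ∀ (L : (Fin m → ZMod p) →ₗ[ZMod p] ZMod p) (w : Fin m → ZMod p),
      L w = ∑ i, L (fun j => if i = j then 1 else 0) * w i := by
    intro L w
    rw [LinearMap.pi_apply_eq_sum_univ L w]
    refine Finset.sum_congr rfl fun i _ => ?_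
    rw [smul_eq_mul, mul_comm]
  let U : (Fin m → ZMod p) →ₗ[ZMod p] ZMod p :=
    (LinearMap.proj (⟨0, by omega⟩ : Fin m) + ε • LinearMap.proj (⟨m - 1, by omega⟩ : Fin m)) ∘ₗ
      (A.symm : (Fin m → ZMod p) →ₗ[ZMod p] (Fin m → ZMod p))
  let V : (Fin m → ZMod p) →ₗ[ZMod p] ZMod p :=
    (LinearMap.proj (⟨0, by omega⟩ : Fin m) - ε • LinearMap.proj (⟨m - 1, by omega⟩ : Fin m)) ∘ₗ
      (A.symm : (Fin m → ZMod p) →ₗ[ZMod p] (Fin m → ZMod p))
  let L : Fin k → (Fin m → ZMod p) →ₗ[ZMod p] ZMod p := fun j =>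
    evl m (tq p (m + (j : ℕ))) ∘ₗ (A.symm : (Fin m → ZMod p) →ₗ[ZMod p] (Fin m → ZMod p))
  have hU : ∀ w, U w = A.symm w ⟨0, by omega⟩ + ε * A.symm w ⟨m - 1, by omega⟩ := fun _ => rfl
  have hV : ∀ w, V w = A.symm w ⟨0, by omega⟩ - ε * A.symm w ⟨m - 1, by omega⟩ := fun _ => rfl
  refine ⟨fun j x => τ.symm (arc g ε hm (Fin.natAdd m j) (A.symm (fun i => τ (x i)))), τ, ε,
    fun j i => L j (fun j' => if i = j' then 1 else 0), fun i => U (fun j' => if i = j' then 1 else 0),
    fun i => V (fun j' => if i = j' then 1 else 0), hε, ?_, ?_, ?_, ?_⟩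
  · refine var_of_arc τ (fun s y => arc g ε hm s y) harc A.toEquiv ?_
    intro y i
    rw [hcast]
    exact hA y i
  · intro j x
    rw [← hlin (L j) (fun i => τ (x i)), τ.apply_symm_apply]
    unfold arc
    rw [if_pos (by rw [Fin.val_natAdd, Fin.val_castSucc]; have := j.2; omega), Fin.val_natAdd,
      Fin.val_castSucc]
    rfl
  · intro c d
    have h2 : (2 : ZMod p) ≠ 0 := by
      have h3 : ((2 : ℕ) : ZMod p) ≠ 0 := by
        rw [Ne, ZMod.natCast_eq_zero_iff]
        intro h4
        have := Nat.le_of_dvd (by omega) h4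
        omega
      exact_mod_cast h3
    let Y : Fin m → ZMod p := fun i => if (i : ℕ) = 0 then (c + d) / 2 else ε * ((c - d) / 2)
    have hY0 : Y ⟨0, by omega⟩ = (c + d) / 2 := if_pos rfl
    have hY1 : Y ⟨m - 1, by omega⟩ = ε * ((c - d) / 2) := if_neg (by simp only; omega)
    refine ⟨A Y, ?_, ?_⟩
    · rw [← hlin U, hU, A.symm_apply_apply, hY0, hY1, ← mul_assoc, hε2, one_mul]
      field_simp
      ring
    · rw [← hlin V, hV, A.symm_apply_apply, hY0, hY1, ← mul_assoc, hε2, one_mul]
      field_simp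
      ring
  · intro x
    rw [← hlin U, ← hlin V, τ.apply_symm_apply]
    unfold arc
    rw [if_neg (by rw [Fin.val_natAdd, Fin.val_last]; omega)]
    rfl

end Pool.Agent.L7h21.VC
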